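import Pool.Agent.Helper41.Girth4.Stmts
import Pool.Agent.Helper41.Girth4.Prob

/-!
# MP_246f82_co, Packet M: assembly
-/

namespace Pool.Agent.Helper49.Girth4

open Pool.Agent.Helper41.Girth4 Finset

universe u

variable {P : Par}

/-- The labelling of a finite tree given by an infinite one extends back to it on short words. -/
theorem ext_word (D : ℕ) : ∀ (X : Tr P) (w : List (Fin 3)), w.length < D →
    ext D (fun z => X (word D z)) w = X w := by
  induction D with
  | zero => intro X w h; exact absurd h (Nat.not_lt_zero _)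
  | succ D ih =>
    intro X w h
    cases w with
    | nil => rfl
    | cons i w =>
      have := ih (fun w => X (i :: w)) w (by simpa using h)
      exact this

theorem word_length (D : ℕ) : ∀ z : Pos D, (word D z).length < D := by
  induction D with
  | zero => intro z; exact z.elim
  | succ D ih =>
    intro z
    cases z with
    | none => simp [word]
    | some p =>
      obtain ⟨i, z⟩ := p
      have := ih z
      simpa [word] using this

theorem word_injective (D : ℕ) : Function.Injective (word D) := by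
  induction D with
  | zero => intro z; exact z.elim
  | succ D ih =>
    intro z z' h
    cases z with
    | none =>
      cases z' with
      | none => rfl
      | some p =>
        obtain ⟨i, z'⟩ := p
        simp [word] at h
    | some p =>
      obtain ⟨i, z⟩ := p
      cases z' with
      | none => simp [word] at h
      | some p' =>
        obtain ⟨i', z'⟩ := p'
        simp only [word, List.cons.injEq] at h
        obtain ⟨h1, h2⟩ := h
        rw [h1, ih h2]

theorem cat_length {D₀ : ℕ} {w z : List (Fin 3)} (h : z ∈ Cat D₀ w) :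
    z.length ≤ w.length + D₀ := by
  obtain ⟨k, z', hk, rfl, hz'⟩ := h
  simp only [List.length_append, List.length_take]
  omega

theorem alive_mono {V : Type*} (G : PG V) (ω : V → Lab P) (v : V) {s t : ℕ} (h : s ≤ t)
    (ha : G.alive ω t v) : G.alive ω s v := by
  induction t, h using Nat.le_induction with
  | base => exact ha
  | succ t _ ih => exact ih ha.1

theorem join_lt_absurd {V : Type*} (G : PG V) (ω : V → Lab P) (x y : V) (j : Fin 4)
    (hxy : G.nb y j = x) {s t : ℕ} (hst : s < t) (hs : G.join ω s x) (ht : G.join ω t y) :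
    False := by
  have h1 : G.alive ω t y := ht.1.1
  have h2 : G.alive ω (s + 1) y := alive_mono G ω y hst h1
  have h3 := h2.2.2 j
  rw [hxy] at h3
  exact h3 hs

theorem inB_indep {V : Type*} (G : PG V) (ω : V → Lab P) (x : V) (i : Fin 4)
    (hx : G.inB ω x) (hy : G.inB ω (G.nb x i)) : False := by
  obtain ⟨s, _, hs⟩ := hx
  obtain ⟨t, _, ht⟩ := hy
  rcases lt_trichotomy s t with h | h | h
  · exact join_lt_absurd G ω x (G.nb x i) (G.rev x i) (G.nb_rev x i) h hs ht
  · subst h
    have h1 : beats (ω x).2 (ω (G.nb x i)).2 := hs.2 i ht.1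
    have h2 := ht.2 (G.rev x i)
    rw [G.nb_rev x i] at h2
    exact beats_asymm h1 (h2 hs.1)
  · exact join_lt_absurd G ω (G.nb x i) x i rfl h ht hs

/-- choice of the path length -/
theorem exists_n (μ C : ℝ) (hμ : 0 < μ) (hμ3 : 3 * μ < 1) (c : ℕ) :
    ∃ n : ℕ, 4 * (C * μ ^ n) * ((c * (n + 1) ^ 2 * 3 ^ n + 1 : ℕ) : ℝ) ≤ 1 := by
  have h1 : Filter.Tendsto (fun n : ℕ => (n : ℝ) ^ 2 * (3 * μ) ^ n) Filter.atTop (nhds 0) :=
    tendsto_pow_const_mul_const_pow_of_abs_lt_one 2 (by rw [abs_of_pos (by positivity)]; exact hμ3)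
  have h2 : Filter.Tendsto (fun n : ℕ => ((n + 1 : ℕ) : ℝ) ^ 2 * (3 * μ) ^ (n + 1))
      Filter.atTop (nhds 0) := h1.comp (Filter.tendsto_add_atTop_nat 1)
  have h3 : Filter.Tendsto (fun n : ℕ => μ ^ n) Filter.atTop (nhds 0) :=
    tendsto_pow_atTop_nhds_zero_of_lt_one hμ.le (by linarith)
  have h4 : Filter.Tendsto (fun n : ℕ => 4 * C * (c / (3 * μ) *
      (((n + 1 : ℕ) : ℝ) ^ 2 * (3 * μ) ^ (n + 1)) + μ ^ n)) Filter.atTop
      (nhds (4 * C * (c / (3 * μ) * 0 + 0))) :=
    ((h2.const_mul _).add h3).const_mul _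
  have h5 : (4 * C * (c / (3 * μ) * 0 + 0)) = 0 := by ring
  rw [h5] at h4
  obtain ⟨n, hn⟩ := (h4.eventually (gt_mem_nhds (show (0 : ℝ) < 1 by norm_num))).exists
  refine ⟨n, le_trans (le_of_eq ?_) hn.le⟩
  push_cast
  have : (3 * μ) ^ (n + 1) = (3 * μ) * (3 ^ n * μ ^ n) := by rw [pow_succ, mul_pow]; ring
  rw [this]
  field_simp

end Pool.Agent.Helper49.Girth4
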