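import Pool.Agent.Helper49.Girth4.Asm

/-!
# MP_246f82_co, Packet M: assembly
-/

namespace Pool.Agent.Helper49.Girth4

open Pool.Agent.Helper41.Girth4 Finset

universe u

variable {P : Par}

/-- extension of a labelling by the default label -/
noncomputable def oext {V' : Type u} (F : Set V') (ω : F → Lab P) (x : V') : Lab P :=
  open Classical in if h : x ∈ F then ω ⟨x, h⟩ else default

theorem oext_mem {V' : Type u} (F : Set V') (ω : F → Lab P) (x : V') (h : x ∈ F) :
    oext F ω x = ω ⟨x, h⟩ := by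
  unfold oext
  rw [dif_pos h]

theorem oext_not {V' : Type u} (F : Set V') (ω : F → Lab P) (x : V') (h : x ∉ F) :
    oext F ω x = default := by
  unfold oext
  rw [dif_neg h]

/-- The assembly from the packet statements. -/
theorem main4_of (P : Par) (hPath : StmtPath.{u} P) (hLocal : StmtLocal P)
    (hSum : StmtSum P) (hUnif : StmtUnif.{u}) (hLLL : StmtLLL.{u}) (hPorts : StmtPorts.{u})
    (hCount : StmtCount.{u}) (hColor : StmtColor.{u})
    (μ : ℝ) (GN G0 : ℕ → ℕ → ℝ) (G1 : ℕ → ℝ) (hμ : 0 < μ) (hμ3 : 3 * μ < 1)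
    (hcert : Cert P μ GN G0 G1) : Main4.{u} := by
  obtain ⟨C, hC⟩ := hSum μ GN G0 G1 hμ hcert
  obtain ⟨c, hc⟩ := hCount (3 * P.K + 3)
  obtain ⟨n, hn⟩ := exists_n μ C hμ hμ3 c
  obtain ⟨D₀, hD₀⟩ : ∃ D₀, D₀ = 3 * P.K + 3 := ⟨_, rfl⟩
  obtain ⟨R, hR⟩ : ∃ R, R = n + D₀ + 2 := ⟨_, rfl⟩
  rw [← hD₀] at hc
  refine ⟨2 * R + 1, ?_⟩
  intro V _ G _ hdeg hgirth
  have hg2 : ((2 * R : ℕ) : ℕ∞) < G.egirth := by
    refine lt_of_lt_of_le ?_ hgirth
    exact_mod_cast Nat.lt_succ_self (2 * R)
  have hgn : (n : ℕ∞) < G.egirth := by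
    refine lt_of_le_of_lt ?_ hg2
    exact_mod_cast (show n ≤ 2 * R by omega)
  obtain ⟨W, H, hadj, hinj⟩ := hPorts V G R
    (fun v => le_trans (G.degree_le_maxDegree v) hdeg) hg2
  -- the finite set of relevant vertices
  obtain ⟨F, hF⟩ : ∃ F : Set (V ⊕ W), F = ⋃ v : V, ⋃ q : Fin 4,
      (fun w => (H.go (Sum.inl v, q) w).1) '' {w | w.length ≤ R} := ⟨_, rfl⟩
  have hFfin : F.Finite := by
    rw [hF]
    refine Set.finite_iUnion fun v => Set.finite_iUnion fun q => Set.Finite.image _ ?_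
    exact List.finite_length_le (Fin 3) R
  have hFmem : ∀ v q w, w.length ≤ R → (H.go (Sum.inl v, q) w).1 ∈ F := by
    intro v q w hw
    rw [hF]
    exact Set.mem_iUnion.mpr ⟨v, Set.mem_iUnion.mpr ⟨q, w, hw, rfl⟩⟩
  have : Finite F := hFfin
  -- the bad events
  have key : ∃ ω : F → Lab P, ∀ j : V × Fin 4 × (Fin n → Fin 3),
      ¬ TB0 (List.ofFn j.2.2) (H.unf (oext F ω) (Sum.inl j.1, j.2.1)) := by
    refine hLLL (I := F) (J := V × Fin 4 × (Fin n → Fin 3)) (L := Lab P)
      (fun j => {i : F | i.1 ∈ supp H D₀ (Sum.inl j.1, j.2.1) (List.ofFn j.2.2)})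
      (fun j ω => TB0 (List.ofFn j.2.2) (H.unf (oext F ω) (Sum.inl j.1, j.2.1)))
      ?_ (C * μ ^ n) (c * (n + 1) ^ 2 * 3 ^ n + 1) ?_ (Nat.le_add_left _ _) ?_ ?_
    · -- locality
      intro j ω ω' hωω' hj
      refine hLocal _ _ _ ?_ hj
      intro z hz
      show oext F ω (H.go (Sum.inl j.1, j.2.1) z).1 = oext F ω' (H.go (Sum.inl j.1, j.2.1) z).1
      by_cases hx : (H.go (Sum.inl j.1, j.2.1) z).1 ∈ F
      · rw [oext_mem F ω _ hx, oext_mem F ω' _ hx]
        refine hωω' _ ?_
        exact ⟨z, by rw [hD₀]; exact hz, rfl⟩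
      · rw [oext_not F ω _ hx, oext_not F ω' _ hx]
    · -- the probability
      rintro ⟨v, q, w⟩
      obtain ⟨D, hD⟩ : ∃ D, D = n + D₀ + 1 := ⟨_, rfl⟩
      obtain ⟨e, he⟩ : ∃ e : Pos D → F, ∀ z, (e z).1 = (H.go (Sum.inl v, q) (word D z)).1 :=
        ⟨fun z => ⟨(H.go (Sum.inl v, q) (word D z)).1,
          hFmem v q _ (by have := word_length D z; omega)⟩, fun z => rfl⟩
      have hinje : Function.Injective e := by
        intro z z' hzz'
        have h1 : (H.go (Sum.inl v, q) (word D z)).1 = (H.go (Sum.inl v, q) (word D z')).1 := by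
          rw [← he, ← he, hzz']
        refine word_injective D (hinj v q ?_ ?_ h1)
        · have := word_length D z; show (word D z).length ≤ R; omega
        · have := word_length D z'; show (word D z').length ≤ R; omega
      have h2 : Pr (fun ω : F → Lab P => TB0 (List.ofFn w) (H.unf (oext F ω) (Sum.inl v, q))) ≤
          Pr (fun ω : F → Lab P => TB0 (List.ofFn w) (ext D (ω ∘ e))) := by
        refine Pr_mono ?_
        intro ω hω
        refine hLocal _ _ _ ?_ hω
        intro z hz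
        have hz1 := cat_length hz
        rw [List.length_ofFn] at hz1
        have h3 := ext_word D (H.unf (oext F ω) (Sum.inl v, q)) z (by omega)
        rw [← h3]
        congr 1
        funext z'
        show oext F ω (H.go (Sum.inl v, q) (word D z')).1 = ω (e z')
        rw [← he z', oext_mem F ω _ (e z').2]
      refine le_trans h2 ?_
      rw [hUnif e hinje (fun Y => TB0 (List.ofFn w) (ext D Y))]
      have h4 := hC (List.ofFn w) D (by rw [List.length_ofFn]; omega)
      rwa [List.length_ofFn] at h4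
    · -- counting
      rintro ⟨v, q, w⟩
      refine le_trans ?_ (le_trans (hc (V := V) (V' := V ⊕ W) Sum.inl Sum.inl_injective H n
        (v, q, w)) (Nat.le_add_right _ _))
      refine Nat.card_le_card_of_injective (fun x => ⟨x.1, ?_⟩) ?_
      · intro hdis
        apply x.2
        rw [Set.disjoint_left] at hdis ⊢
        intro i hi hi'
        exact hdis hi hi'
      · intro x y hxy
        exact Subtype.ext (by simpa using hxy)
    · exact hn
  obtain ⟨ω, hω⟩ := key
  refine hColor V W G H n (H.inB (oext F ω)) hadj hgn ?_ ?_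
  · intro a b hab hB
    obtain ⟨i, hi⟩ := (hadj a b).mp hab
    refine inB_indep H (oext F ω) (Sum.inl a) i hB.1 ?_
    rw [hi]
    exact hB.2
  · intro v q w
    by_contra hcon
    push Not at hcon
    refine hω (v, q, w) (hPath H (oext F ω) (Sum.inl v, q) (List.ofFn w) ?_)
    intro k hk
    rw [List.length_ofFn] at hk
    exact hcon k hk

end Pool.Agent.Helper49.Girth4
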