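import Pool.Agent.Helper49.Girth4.Asm2
import Pool.Agent.Helper57.Girth4.Path
import Pool.Agent.Helper16.Girth4.Local
import Pool.Agent.Helper21.Girth4.Vertex
import Pool.Agent.Helper82.Girth4.Law
import Pool.Agent.Helper82.Girth4.Ports
import Pool.Agent.Helper85.Girth4.Main
import Pool.Agent.Helper51.Girth4.LLL
import Pool.Agent.Helper11.Girth4.NB
import Pool.Agent.Helper80.Girth4.Count
import Pool.Agent.Helper33.Girth4.Color

/-!
# MP_246f82_co, Packet M: the certificate implies the theorem for maximum degree 4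
-/

namespace Pool.Agent.Helper49.Girth4

open Pool.Agent.Helper41.Girth4

universe u

/-- Packet M. -/
theorem main4 (h : StmtCert) : Main4.{u} := by
  obtain ⟨P, μ, GN, G0, G1, hμ, hμ3, hcert⟩ := h
  have hV : StmtVertex P := Pool.Agent.Helper21.Girth4.stmtVertex P
  have hL : StmtLaw P := Pool.Agent.Helper82.Girth4.stmtLaw P hV
  exact main4_of P (Pool.Agent.Helper57.Girth4.stmtPath P) (Pool.Agent.Helper16.Girth4.stmtLocal P)
    (Pool.Agent.Helper85.Girth4.stmtSum P hV hL) Pool.Agent.Helper51.Girth4.stmtUnif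
    Pool.Agent.Helper51.Girth4.stmtLLL
    (Pool.Agent.Helper82.Girth4.stmtPorts Pool.Agent.Helper11.Girth4.stmtNB)
    Pool.Agent.Helper80.Girth4.stmtCount Pool.Agent.Helper33.Girth4.stmtColor
    μ GN G0 G1 hμ hμ3 hcert

end Pool.Agent.Helper49.Girth4
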